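import Pool.Agent.H8.PL.Targets

/-!
# Spectra are given by tilings of squares (module SQ)
-/

set_option autoImplicit false

namespace Pool.Agent.H56.PL

open Pool.Agent.H8.PL Pool.Agent.H69.Sp Pool.Agent.H69.Mt Pool.Agent.H16.TO

theorem wt_const {r m : ℕ} {n : ℕ → ℕ} (h : ∀ i < r, n i = m) : wt n r = m ^ r := by
  unfold wt
  rw [Finset.prod_congr rfl fun i hi => h i (Finset.mem_range.1 hi), Finset.prod_const,
    Finset.card_range]

theorem pf_sq (hSA : Z_SA) (hSB : Z_SB) (hGT : T_GT) (hCA : T_CA) (hCB : T_CB) : Z_SQ := by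
  intro S hS
  obtain ⟨r, T, G, H, hr, hT, hG⟩ := hGT S hS
  refine ⟨r, Ql r T, UC G, HC, VC H, hr, inferInstance, ?_⟩
  intro W W' hW hW'
  constructor
  · rintro ⟨t, ht⟩
    obtain ⟨hWW, cl, s, hcs⟩ := hSA r T G H W W' t hW hW' ht
    obtain ⟨n, hB, hwt, hti⟩ := hCA r T G H W cl s hW hcs
    obtain ⟨m, hm, hnm⟩ := (hG n hB).1 hti
    have h1 := wt_const hnm
    exact ⟨m, hm, by rw [hwt, h1], by rw [← hWW, hwt, h1]⟩
  · rintro ⟨m, hm, h1, h2⟩
    have hm0 : 0 < m := by
      rcases Nat.eq_zero_or_pos m with h | h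
      · rw [h, zero_pow hr.ne'] at h1
        omega
      · exact h
    have hnm : ∀ i < r, (fun i => if i < r then m else 1) i = m := fun i hi => if_pos hi
    have hB : Box r (fun i => if i < r then m else 1) := by
      refine ⟨fun i => ?_, fun i hi => if_neg (not_lt.2 hi)⟩
      change 0 < if i < r then m else 1
      split_ifs
      · exact hm0
      · exact one_pos
    obtain ⟨cl, s, hcs⟩ := hCB r T G H _ hB ((hG _ hB).2 ⟨m, hm, hnm⟩)
    rw [wt_const hnm, ← h1] at hcs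
    obtain ⟨t, ht⟩ := hSB r T G H W cl s hW hcs
    rw [h2, ← h1]
    exact ⟨t, ht⟩

end Pool.Agent.H56.PL
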